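import Pool.Agent.Y282.WD.Stm

/-!
# Project WD (helper282): the task TAIL
-/

set_option autoImplicit false

open Filter Topology Metric Set

namespace Pool.Agent.Y151.WD

open Pool.Agent.H384R2.Fatou Pool.Agent.H723R2.LSW Pool.Agent.Y282.WD

theorem abs_int (m : ℤ) : |(m : ℝ) + 1 / 2| = ((|2 * m + 1| : ℤ) : ℝ) / 2 := by
  rw [Int.cast_abs, show (m : ℝ) + 1 / 2 = ((2 * m + 1 : ℤ) : ℝ) / 2 by push_cast; ring, abs_div]
  norm_num

theorem bt_eq (m : ℤ) : bt m = Real.pi ^ 2 / 8 * ((|2 * m + 1| : ℤ) : ℝ) := by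
  rw [bt, abs_int]; ring

theorem pi8 : 1 < Real.pi ^ 2 / 8 := by
  have := Real.pi_gt_three
  nlinarith

theorem one_lt_bt (m : ℤ) : 1 < bt m := by
  rw [bt_eq]
  have h1 : (1 : ℝ) ≤ ((|2 * m + 1| : ℤ) : ℝ) := by
    exact_mod_cast Int.one_le_abs (by omega)
  have := pi8
  nlinarith

theorem bt_T_le (m : ℤ) : bt (T m) ≤ 2 * bt m := by
  rw [bt_eq, bt_eq]
  have h : |2 * T m + 1| ≤ 2 * |2 * m + 1| := by
    unfold T
    rcases Int.emod_two_eq_zero_or_one m with h | h
    · simp only [h, if_true]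
      rcases abs_cases (2 * (m / 2) + 1) with h1 | h1 <;> rcases abs_cases (2 * m + 1) with h2 | h2 <;>
        omega
    · simp only [h]
      norm_num
      rcases abs_cases (2 * ((3 * m + 1) / 2) + 1) with h1 | h1 <;>
        rcases abs_cases (2 * m + 1) with h2 | h2 <;> omega
  have h' : ((|2 * T m + 1| : ℤ) : ℝ) ≤ 2 * ((|2 * m + 1| : ℤ) : ℝ) := by exact_mod_cast h
  have := pi8
  nlinarith

theorem bt_le_T (m : ℤ) : bt m ≤ 3 * bt (T m) := by
  rw [bt_eq, bt_eq]
  have h : |2 * m + 1| ≤ 3 * |2 * T m + 1| := by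
    unfold T
    rcases Int.emod_two_eq_zero_or_one m with h | h
    · simp only [h, if_true]
      rcases abs_cases (2 * (m / 2) + 1) with h1 | h1 <;> rcases abs_cases (2 * m + 1) with h2 | h2 <;>
        omega
    · simp only [h]
      norm_num
      rcases abs_cases (2 * ((3 * m + 1) / 2) + 1) with h1 | h1 <;>
        rcases abs_cases (2 * m + 1) with h2 | h2 <;> omega
  have h' : ((|2 * m + 1| : ℤ) : ℝ) ≤ 3 * ((|2 * T m + 1| : ℤ) : ℝ) := by exact_mod_cast h
  have := pi8
  nlinarith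

theorem log_pos' (m : ℤ) : 0 < Real.log (bt m) := Real.log_pos (one_lt_bt m)

theorem log_T_le (m : ℤ) : Real.log (bt (T m)) ≤ Real.log (bt m) + Real.log 2 := by
  have h1 := one_lt_bt m
  have h2 := one_lt_bt (T m)
  rw [← Real.log_mul (by positivity) (by norm_num)]
  exact Real.log_le_log (by positivity) (by rw [mul_comm]; exact bt_T_le m)

theorem log_le_T (m : ℤ) : Real.log (bt m) - Real.log 3 ≤ Real.log (bt (T m)) := by
  have h1 := one_lt_bt m
  have h2 := one_lt_bt (T m)
  rw [sub_le_iff_le_add, ← Real.log_mul (by positivity) (by norm_num)]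
  exact Real.log_le_log (by positivity) (by rw [mul_comm]; exact bt_le_T m)

theorem log_iter_le (m : ℤ) (i : ℕ) :
    Real.log (bt (T^[i] m)) ≤ Real.log (bt m) + i * Real.log 2 := by
  induction i with
  | zero => simp
  | succ i ih =>
    rw [Function.iterate_succ_apply']
    have := log_T_le (T^[i] m)
    push_cast
    linarith

theorem log_le_iter (m : ℤ) (i : ℕ) :
    Real.log (bt m) - i * Real.log 3 ≤ Real.log (bt (T^[i] m)) := by
  induction i with
  | zero => simp
  | succ i ih =>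
    rw [Function.iterate_succ_apply']
    have := log_le_T (T^[i] m)
    push_cast
    linarith

theorem hs (a b : ℝ) : HasSum (fun i : ℕ => (a + i * b) / 2 ^ (i + 1)) (a + b) := by
  have h1 : HasSum (fun i : ℕ => a / 2 / 2 ^ i) a := hasSum_geometric_two' a
  have h2 : HasSum (fun i : ℕ => (i : ℝ) * (1 / 2) ^ i) ((1 / 2) / (1 - 1 / 2) ^ 2) :=
    hasSum_coe_mul_geometric_of_norm_lt_one (by norm_num)
  have h3 := h1.add (h2.mul_left (b / 2))
  have e : a + b / 2 * ((1 / 2) / (1 - 1 / 2) ^ 2) = a + b := by ring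
  rw [e] at h3
  convert h3 using 2 with i
  rw [pow_succ, one_div, inv_pow]
  field_simp

theorem summ (m : ℤ) : Summable (fun i : ℕ => Real.log (bt (T^[i] m)) / 2 ^ (i + 1)) := by
  refine Summable.of_nonneg_of_le (fun i => ?_) (fun i => ?_)
    (hs (Real.log (bt m)) (Real.log 2)).summable
  · exact div_nonneg (log_pos' _).le (by positivity)
  · exact div_le_div_of_nonneg_right (log_iter_le m i) (by positivity)

theorem sum_le (m : ℤ) : ∑' i : ℕ, Real.log (bt (T^[i] m)) / 2 ^ (i + 1) ≤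
    Real.log (bt m) + Real.log 2 := by
  rw [← (hs (Real.log (bt m)) (Real.log 2)).tsum_eq]
  exact (summ m).tsum_le_tsum
    (fun i => div_le_div_of_nonneg_right (log_iter_le m i) (by positivity))
    (hs (Real.log (bt m)) (Real.log 2)).summable

theorem le_sum (m : ℤ) : Real.log (bt m) - Real.log 3 ≤
    ∑' i : ℕ, Real.log (bt (T^[i] m)) / 2 ^ (i + 1) := by
  have h := hs (Real.log (bt m)) (-Real.log 3)
  rw [sub_eq_add_neg, ← h.tsum_eq]
  refine h.summable.tsum_le_tsum (fun i => ?_) (summ m)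
  have := log_le_iter m i
  exact div_le_div_of_nonneg_right (by linarith) (by positivity)

theorem t_TAIL : S_TAIL := by
  refine ⟨fun m => ⟨one_lt_bt m, bt_T_le m, bt_le_T m⟩, fun m => ?_⟩
  have hb := one_lt_bt m
  have hb0 : 0 < bt m := by linarith
  have hr : 0 < rho m := Real.exp_pos _
  refine ⟨hr, ?_, ?_, ?_⟩
  · unfold rho
    rw [← Real.exp_nat_mul]
    have e0 : bt m * Real.exp (((2 : ℕ) : ℝ) * -∑' i : ℕ, Real.log (bt (T^[i] m)) / 2 ^ (i + 1)) =
        Real.exp (Real.log (bt m) +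
          ((2 : ℕ) : ℝ) * -∑' i : ℕ, Real.log (bt (T^[i] m)) / 2 ^ (i + 1)) := by
      rw [Real.exp_add, Real.exp_log hb0]
    rw [e0]
    congr 1
    rw [(summ m).tsum_eq_zero_add]
    have e : ∀ i : ℕ, Real.log (bt (T^[i] (T m))) / 2 ^ (i + 1) =
        2 * (Real.log (bt (T^[i + 1] m)) / 2 ^ (i + 1 + 1)) := by
      intro i
      rw [Function.iterate_succ_apply, pow_succ (2 : ℝ) (i + 1)]
      field_simp
    rw [tsum_congr e, tsum_mul_left]
    simp only [Function.iterate_zero, id_eq, zero_add, pow_one, Nat.cast_ofNat]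
    ring
  · have h : Real.exp (-(Real.log (bt m) + Real.log 2)) ≤ rho m :=
      Real.exp_le_exp.2 (neg_le_neg (sum_le m))
    rw [Real.exp_neg, Real.exp_add, Real.exp_log hb0, Real.exp_log two_pos] at h
    have h2 : 2 * bt m * (bt m * 2)⁻¹ ≤ 2 * bt m * rho m :=
      mul_le_mul_of_nonneg_left h (by positivity)
    have e : 2 * bt m * (bt m * 2)⁻¹ = 1 := by field_simp
    rw [e] at h2
    exact h2
  · have h : rho m ≤ Real.exp (-(Real.log (bt m) - Real.log 3)) :=
      Real.exp_le_exp.2 (neg_le_neg (le_sum m))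
    rw [neg_sub, Real.exp_sub, Real.exp_log hb0, Real.exp_log three_pos] at h
    have h2 : bt m * rho m ≤ bt m * (3 / bt m) := mul_le_mul_of_nonneg_left h hb0.le
    have e : bt m * (3 / bt m) = 3 := by field_simp
    rw [e] at h2
    exact h2

end Pool.Agent.Y151.WD
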